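import Pool.Agent.H23.DF.TargetsL

/-!
# (KP) the ideals of the cosets of a friable conductor
-/

set_option autoImplicit false

open NumberField UniqueFactorizationMonoid

namespace Pool.Agent.H92.DF.KP

open Pool.Agent.H23.DF Pool.Agent.H23.LB

section aux

variable {K : Type} [Field K] [NumberField K]

private lemma Nf_mul (I J : Ideal (𝓞 K)) : Nf K (I * J) = Nf K I * Nf K J := by
  unfold Nf
  rw [map_mul, Nat.cast_mul]

private lemma Nf_nonneg (I : Ideal (𝓞 K)) : 0 ≤ Nf K I := by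
  unfold Nf
  positivity

open scoped Classical in
/-- the product of the powers with exponents `a` -/
private noncomputable def pp (r : Ideal (𝓞 K)) (a : Ideal (𝓞 K) → ℕ) : Ideal (𝓞 K) :=
  ∏ P ∈ (normalizedFactors r).toFinset, P ^ a P

open scoped Classical in
private lemma mem_iff (r P : Ideal (𝓞 K)) (hr : r ≠ ⊥) :
    P ∈ (normalizedFactors r).toFinset ↔ Prime P ∧ r ≤ P := by
  rw [Multiset.mem_toFinset, UniqueFactorizationMonoid.mem_normalizedFactors_iff hr,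
    Ideal.dvd_iff_le]

open scoped Classical in
private lemma pp_le (r : Ideal (𝓞 K)) (a b : Ideal (𝓞 K) → ℕ)
    (h : ∀ P ∈ (normalizedFactors r).toFinset, b P ≤ a P) : pp r a ≤ pp r b := by
  rw [← Ideal.dvd_iff_le]
  exact Finset.prod_dvd_prod_of_dvd _ _ fun P hP => pow_dvd_pow P (h P hP)

private lemma pp_pow (r : Ideal (𝓞 K)) (a : Ideal (𝓞 K) → ℕ) (n : ℕ) :
    pp r a ^ n = pp r (fun P => a P * n) := by
  unfold pp
  rw [← Finset.prod_pow]
  exact Finset.prod_congr rfl fun P _ => (pow_mul _ _ _).symm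

open scoped Classical in
private lemma Nf_pp (r : Ideal (𝓞 K)) (a : Ideal (𝓞 K) → ℕ) :
    Nf K (pp r a) = ∏ P ∈ (normalizedFactors r).toFinset, Nf K P ^ a P := by
  unfold pp Nf
  rw [map_prod, Nat.cast_prod]
  exact Finset.prod_congr rfl fun P _ => by rw [map_pow, Nat.cast_pow]

private lemma one_le_Nf (I : Ideal (𝓞 K)) (h : I ≠ ⊥) : 1 ≤ Nf K I := by
  unfold Nf
  exact_mod_cast Nat.one_le_iff_ne_zero.2 (fun h0 => h (Ideal.absNorm_eq_zero_iff.1 h0))

private lemma Nf_le (I J : Ideal (𝓞 K)) (h : I ≤ J) (hI : I ≠ ⊥) : Nf K J ≤ Nf K I := by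
  unfold Nf
  have h1 : 0 < Ideal.absNorm I :=
    Nat.pos_of_ne_zero fun h0 => hI (Ideal.absNorm_eq_zero_iff.1 h0)
  exact_mod_cast Nat.le_of_dvd h1 (Ideal.absNorm_dvd_absNorm_of_le h)

/-- The part at `k`. -/
private lemma part_k (k : Ideal (𝓞 K)) (hk : k ≠ ⊥) (hcub : k ≤ k.radical ^ 3) (θ : ℝ)
    (h0 : 1 / 6 ≤ θ) (h1 : θ ≤ 1 / 3) :
    ∃ q : Ideal (𝓞 K), k ≤ q ^ 3 ∧ q ^ 6 ≤ k ∧ q ≤ k.radical ∧
      Nf K q ≤ Nf K k ^ θ * Nf K k.radical ∧ Nf K k ^ θ ≤ Nf K q * Nf K k.radical := by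
  classical
  have hr : k.radical ≠ ⊥ := fun h => hk (le_bot_iff.1 (h ▸ Ideal.le_radical))
  set r := k.radical with hrd
  set S := (normalizedFactors r).toFinset with hS
  set n : Ideal (𝓞 K) → ℕ := fun P => (normalizedFactors k).count P with hn
  -- factorization of `k`
  have hkn : pp r n = k := by
    unfold pp
    conv_rhs => rw [← Ideal.prod_normalizedFactors_eq_self hk]
    refine (Finset.prod_multiset_count_of_subset _ _ ?_).symm
    intro P hP
    rw [mem_iff _ _ hk] at hP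
    rw [mem_iff _ _ hr]
    exact ⟨hP.1, ((Ideal.isPrime_of_prime hP.1).radical_le_iff).2 hP.2⟩
  have hn3 : ∀ P ∈ S, 3 ≤ n P := by
    intro P hP
    have h6 := (mem_iff r P hr).1 hP
    have h7 : P ^ 3 ∣ k := by
      rw [Ideal.dvd_iff_le]
      exact hcub.trans (Ideal.pow_right_mono h6.2 3)
    have h8 := (pow_dvd_iff_le_emultiplicity).1 h7
    rw [emultiplicity_eq_count_normalizedFactors h6.1.irreducible hk, normalize_eq] at h8
    exact_mod_cast h8
  -- factorization of `r`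
  have hrn : r ≤ pp r (fun _ => 1) := by
    conv_lhs => rw [← Ideal.prod_normalizedFactors_eq_self hr, Finset.prod_multiset_count]
    refine pp_le r _ _ fun P hP => ?_
    exact Multiset.one_le_count_iff_mem.2 (Multiset.mem_toFinset.1 hP)
  have hrn' : pp r (fun _ => 1) ≤ r := by
    conv_rhs => rw [hrd, ← Ideal.radical_idem k, Ideal.radical_eq_sInf]
    refine le_sInf fun J hJ => ?_
    have hJ0 : J ≠ ⊥ := fun h0 => hr (le_bot_iff.1 (h0 ▸ hJ.1))
    have hJS : J ∈ S := (mem_iff r J hr).2 ⟨Ideal.prime_of_isPrime hJ0 hJ.2, hJ.1⟩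
    rw [← Ideal.dvd_iff_le]
    unfold pp
    have h9 := Finset.dvd_prod_of_mem (fun P : Ideal (𝓞 K) => P ^ 1) hJS
    rw [hS] at h9
    exact (pow_one J).symm ▸ h9
  have hN1 : ∀ P ∈ S, 1 ≤ Nf K P := fun P hP =>
    one_le_Nf P ((mem_iff r P hr).1 hP).1.ne_zero
  -- real powers of the norm of `k`
  have hkt : Nf K k ^ θ = ∏ P ∈ S, Nf K P ^ (θ * n P) := by
    conv_lhs => rw [← hkn]
    rw [Nf_pp, ← Real.finsetProd_rpow _ _ (fun P hP => pow_nonneg (by linarith [hN1 P hP]) _)]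
    refine Finset.prod_congr rfl fun P hP => ?_
    rw [← Real.rpow_natCast, ← Real.rpow_mul (by linarith [hN1 P hP]), mul_comm]
  set a : Ideal (𝓞 K) → ℕ := fun P => max ((n P + 5) / 6) ⌊θ * n P⌋₊ with ha
  have hn0 : ∀ P, (0 : ℝ) ≤ n P := fun P => Nat.cast_nonneg _
  have hfl : ∀ P, ((⌊θ * n P⌋₊ : ℕ) : ℝ) ≤ θ * n P := fun P =>
    Nat.floor_le (mul_nonneg (by linarith) (hn0 P))
  have hfl3 : ∀ P, ⌊θ * n P⌋₊ * 3 ≤ n P := by
    intro P
    have h2 : ((⌊θ * n P⌋₊ : ℕ) : ℝ) * 3 ≤ n P := by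
      have := hfl P
      have := hn0 P
      nlinarith
    exact_mod_cast h2
  have ha3 : ∀ P ∈ S, a P * 3 ≤ n P := by
    intro P hP
    have h2 := hn3 P hP
    have h3 := hfl3 P
    have h4 : (n P + 5) / 6 * 3 ≤ n P := by omega
    rw [ha]
    rcases le_total ((n P + 5) / 6) ⌊θ * n P⌋₊ with h5 | h5
    · simp only [max_eq_right h5]
      exact h3
    · simp only [max_eq_left h5]
      exact h4
  have ha6 : ∀ P ∈ S, n P ≤ a P * 6 := by
    intro P hP
    have h4 : n P ≤ (n P + 5) / 6 * 6 := by omega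
    exact h4.trans (Nat.mul_le_mul_right 6 (le_max_left _ _))
  have ha1 : ∀ P ∈ S, 1 ≤ a P := by
    intro P hP
    have h2 := hn3 P hP
    have h4 : 1 ≤ (n P + 5) / 6 := by omega
    exact h4.trans (le_max_left _ _)
  have haup : ∀ P, (a P : ℝ) ≤ θ * n P + 1 := by
    intro P
    have h2 : (((n P + 5) / 6 : ℕ) : ℝ) ≤ (n P : ℝ) / 6 + 1 := by
      have h3 : (n P + 5) / 6 * 6 ≤ n P + 5 := Nat.div_mul_le_self _ _
      have h4 : (((n P + 5) / 6 : ℕ) : ℝ) * 6 ≤ n P + 5 := by exact_mod_cast h3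
      linarith
    have h5 := hfl P
    have h6 := hn0 P
    rw [ha]
    push_cast
    refine max_le (h2.trans ?_) (h5.trans (by linarith))
    nlinarith
  have halo : ∀ P, θ * n P ≤ (a P : ℝ) + 1 := by
    intro P
    have h2 : θ * n P < ((⌊θ * n P⌋₊ : ℕ) : ℝ) + 1 := Nat.lt_floor_add_one _
    have h3 : ((⌊θ * n P⌋₊ : ℕ) : ℝ) ≤ a P := by
      exact_mod_cast le_max_right _ _
    linarith
  have hNr : Nf K (pp r (fun _ => 1)) ≤ Nf K r := Nf_le _ _ hrn hr
  refine ⟨pp r a, ?_, ?_, ?_, ?_, ?_⟩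
  · rw [pp_pow]
    conv_lhs => rw [← hkn]
    exact pp_le r _ _ fun P hP => ha3 P hP
  · rw [pp_pow]
    conv_rhs => rw [← hkn]
    exact pp_le r _ _ fun P hP => ha6 P hP
  · exact (pp_le r _ _ fun P hP => ha1 P hP).trans hrn'
  · refine le_trans ?_ (mul_le_mul_of_nonneg_left hNr
      (Real.rpow_nonneg (by linarith [one_le_Nf k hk]) _))
    rw [hkt, Nf_pp, Nf_pp, ← Finset.prod_mul_distrib]
    refine Finset.prod_le_prod (fun P hP => pow_nonneg (by linarith [hN1 P hP]) _)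
      fun P hP => ?_
    have h3 : 0 < Nf K P := by linarith [hN1 P hP]
    rw [pow_one, ← Real.rpow_natCast]
    calc Nf K P ^ ((a P : ℕ) : ℝ) ≤ Nf K P ^ (θ * n P + 1) :=
          Real.rpow_le_rpow_of_exponent_le (hN1 P hP) (haup P)
      _ = Nf K P ^ (θ * n P) * Nf K P := by
          rw [Real.rpow_add h3, Real.rpow_one]
  · refine le_trans ?_ (mul_le_mul_of_nonneg_left hNr (Nf_nonneg _))
    rw [hkt, Nf_pp, Nf_pp, ← Finset.prod_mul_distrib]
    refine Finset.prod_le_prod (fun P hP => Real.rpow_nonneg (by linarith [hN1 P hP]) _)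
      fun P hP => ?_
    have h3 : 0 < Nf K P := by linarith [hN1 P hP]
    rw [pow_one]
    calc Nf K P ^ (θ * n P) ≤ Nf K P ^ ((a P : ℝ) + 1) :=
          Real.rpow_le_rpow_of_exponent_le (hN1 P hP) (halo P)
      _ = Nf K P ^ a P * Nf K P := by
          rw [Real.rpow_add h3, Real.rpow_one, Real.rpow_natCast]

/-- The part at `s`. -/
private lemma part_s (s : Ideal (𝓞 K)) (Y : ℝ) (hs : s ≠ ⊥) (hY : 1 ≤ Y)
    (hfri : ∀ P : Ideal (𝓞 K), P.IsPrime → s ≤ P → Nf K P ≤ Y) (θ : ℝ) (h0 : 0 ≤ θ)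
    (h1 : θ ≤ 1) :
    ∃ t : Ideal (𝓞 K), s ≤ t ∧ Nf K t ≤ Nf K s ^ θ ∧ Nf K s ^ θ ≤ Nf K t * Y := by
  classical
  have hs1 : 1 ≤ Nf K s := one_le_Nf s hs
  have htop : Nf K (⊤ : Ideal (𝓞 K)) = 1 := by
    unfold Nf
    rw [Ideal.absNorm_top, Nat.cast_one]
  have hfin : {m : ℕ | ∃ t : Ideal (𝓞 K), s ≤ t ∧ Nf K t ≤ Nf K s ^ θ ∧
      Ideal.absNorm t = m}.Finite := by
    refine (Set.finite_le_nat (Ideal.absNorm s)).subset ?_
    rintro m ⟨t, hst, -, rfl⟩
    exact Nat.le_of_dvd (Nat.pos_of_ne_zero fun h => hs (Ideal.absNorm_eq_zero_iff.1 h))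
      (Ideal.absNorm_dvd_absNorm_of_le hst)
  obtain ⟨m, ⟨t, hst, htn, hm⟩, hmax⟩ := hfin.exists_maximal
    ⟨_, ⊤, le_top, by rw [htop]; exact Real.one_le_rpow hs1 h0, rfl⟩
  refine ⟨t, hst, htn, ?_⟩
  have ht : t ≠ ⊥ := fun h => hs (le_bot_iff.1 (h ▸ hst))
  obtain ⟨u, hu⟩ := Ideal.dvd_iff_le.2 hst
  by_cases hu1 : u = ⊤
  · have hts : s = t := by rw [hu, hu1, Ideal.mul_top]
    rw [← hts]
    calc Nf K s ^ θ ≤ Nf K s ^ (1 : ℝ) := Real.rpow_le_rpow_of_exponent_le hs1 h1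
      _ = Nf K s * 1 := by rw [Real.rpow_one, mul_one]
      _ ≤ Nf K s * Y := mul_le_mul_of_nonneg_left hY (Nf_nonneg _)
  · obtain ⟨P, hP, huP⟩ := Ideal.exists_le_maximal u hu1
    obtain ⟨u', hu'⟩ := Ideal.dvd_iff_le.2 huP
    have hsu : s ≤ u := by
      rw [hu]
      exact Ideal.mul_le_right (I := t) (J := u)
    have hsP : s ≤ P := hsu.trans huP
    have hPY := hfri P hP.isPrime hsP
    have hst' : s ≤ t * P := by
      rw [hu, hu', ← mul_assoc]
      exact Ideal.mul_le_left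
    have h2 : Nf K (t * P) = Nf K t * Nf K P := Nf_mul _ _
    have hgt : Nf K s ^ θ < Nf K (t * P) := by
      by_contra hcon
      have h3 := hmax ⟨t * P, hst', not_lt.1 hcon, rfl⟩
      have h4 : Ideal.absNorm (t * P) = Ideal.absNorm t * Ideal.absNorm P := map_mul _ _ _
      have h5 : Ideal.absNorm P ≠ 1 := fun h => hP.ne_top (Ideal.absNorm_eq_one_iff.1 h)
      have hPb : P ≠ ⊥ := fun h => hs (le_bot_iff.1 (h ▸ hsP))
      have h6 : Ideal.absNorm P ≠ 0 := fun h => hPb (Ideal.absNorm_eq_zero_iff.1 h)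
      have h7 : Ideal.absNorm t ≠ 0 := fun h => ht (Ideal.absNorm_eq_zero_iff.1 h)
      have h8 : 2 ≤ Ideal.absNorm P := by omega
      have h9 : m < Ideal.absNorm (t * P) := by
        rw [h4, ← hm]
        have h10 : 1 ≤ Ideal.absNorm t := by omega
        nlinarith
      have h11 := h3 h9.le
      exact absurd h11 (not_le.2 h9)
    rw [h2] at hgt
    exact hgt.le.trans (mul_le_mul_of_nonneg_left hPY (Nf_nonneg _))

end aux

theorem pf_KP : F_KP := by
  classical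
  intro K _ _ l s k Y hS θ h0 h1
  have hsk : s * k ≠ ⊥ := hS.lk.k_ne
  have hs : s ≠ ⊥ := fun h => hsk (by rw [h, Ideal.bot_mul])
  have hk : k ≠ ⊥ := fun h => hsk (by rw [h, Ideal.mul_bot])
  obtain ⟨q, hq3, hq6, hqr, hqup, hqlo⟩ := part_k k hk hS.cub θ h0 h1
  obtain ⟨t, hst, htup, htlo⟩ := part_s s Y hs hS.one hS.fri θ (by linarith) (by linarith)
  have hkq : k ≤ q := hq3.trans (Ideal.pow_le_self (by norm_num))
  have hks : k ⊔ s = ⊤ := by rw [sup_comm]; exact hS.cop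
  have hs1 : 1 ≤ Nf K s := one_le_Nf s hs
  have hk1 : 1 ≤ Nf K k := one_le_Nf k hk
  have hlock : q * t ⊔ k = q := by
    refine le_antisymm (sup_le Ideal.mul_le_left hkq) ?_
    have h2 : t ⊔ k = ⊤ := by
      refine top_le_iff.1 ?_
      rw [← hS.cop]
      exact sup_le_sup hst le_rfl
    calc q = q * (t ⊔ k) := by rw [h2, Ideal.mul_top]
      _ = q * t ⊔ q * k := Ideal.mul_sup _ _ _
      _ ≤ q * t ⊔ k := sup_le_sup le_rfl Ideal.mul_le_right
  have hlocs : q * t ⊔ s = t := by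
    refine le_antisymm (sup_le Ideal.mul_le_right hst) ?_
    have h2 : q ⊔ s = ⊤ := by
      refine top_le_iff.1 ?_
      rw [← hks]
      exact sup_le_sup hkq le_rfl
    calc t = (q ⊔ s) * t := by rw [h2, Ideal.top_mul]
      _ = q * t ⊔ s * t := Ideal.sup_mul _ _ _
      _ ≤ q * t ⊔ s := sup_le_sup le_rfl Ideal.mul_le_left
  have hr0 : 0 ≤ Nf K k.radical := Nf_nonneg _
  have hpow : Nf K (s * k) ^ θ = Nf K s ^ θ * Nf K k ^ θ := by
    rw [Nf_mul, Real.mul_rpow (Nf_nonneg _) (Nf_nonneg _)]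
  refine ⟨q * t, ⟨?_, ?_, ?_, ?_, ?_⟩, ?_, ?_⟩
  · rw [mul_comm s k]
    exact Ideal.mul_mono hkq hst
  · exact Ideal.mul_le_left.trans hqr
  · rw [hlock]
    exact hq3
  · rw [hlock]
    exact hq6
  · rw [hlocs]
    calc Nf K t ^ 3 ≤ (Nf K s ^ θ) ^ 3 := pow_le_pow_left₀ (Nf_nonneg _) htup 3
      _ = Nf K s ^ (θ * 3) := by
        rw [← Real.rpow_natCast, ← Real.rpow_mul (Nf_nonneg _)]
        norm_num
      _ ≤ Nf K s ^ (1 : ℝ) := Real.rpow_le_rpow_of_exponent_le hs1 (by linarith)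
      _ = Nf K s := Real.rpow_one _
  · rw [Nf_mul, hpow]
    calc Nf K q * Nf K t ≤ (Nf K k ^ θ * Nf K k.radical) * Nf K s ^ θ :=
          mul_le_mul hqup htup (Nf_nonneg _)
            (mul_nonneg (Real.rpow_nonneg (Nf_nonneg _) _) hr0)
      _ = Nf K s ^ θ * Nf K k ^ θ * Nf K k.radical := by ring
  · rw [hpow, Nf_mul]
    calc Nf K s ^ θ * Nf K k ^ θ ≤ (Nf K t * Y) * (Nf K q * Nf K k.radical) :=
          mul_le_mul htlo hqlo (Real.rpow_nonneg (Nf_nonneg _) _)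
            (mul_nonneg (Nf_nonneg _) (by linarith [hS.one]))
      _ = Nf K q * Nf K t * (Nf K k.radical * Y) := by ring

end Pool.Agent.H92.DF.KP
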